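import Mathlib

namespace Pool.Agent.Results.MP_26893d_co.No

open Finset

/-- error of the perfect matching `a ↦ σ a` of the complete bipartite graph. -/
noncomputable def err {n k : ℕ} (h : Fin n → Fin n → Fin k → ℝ) (σ : Equiv.Perm (Fin n)) : ℝ :=
  ∑ i, |(∑ a, h a (σ a) i) - (1 / (n : ℝ)) * ∑ a, ∑ b, h a b i|

theorem half (z t : ℕ) : (1 / 2 : ℝ) ≤ |(z : ℝ) - (2 * t + 1) / 2| := by
  rcases le_or_gt z t with h | h
  · have : (z : ℝ) ≤ t := by exact_mod_cast h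
    rw [abs_sub_comm, abs_of_nonneg (by linarith)]; linarith
  · have : (t : ℝ) + 1 ≤ z := by exact_mod_cast h
    rw [abs_of_nonneg (by linarith)]; linarith

theorem main (p t : ℕ) (hp : 1 ≤ p) :
    ∃ c : Fin (2 * p * (2 * t + 1)) → Fin (2 * p * (2 * t + 1)) → Fin (4 * p),
      ∀ σ, ((4 * p : ℕ) : ℝ) / 2 ≤ err (fun a b i => if c a b = i then (1 : ℝ) else 0) σ := by
  classical
  have cA : Fintype.card (Fin (2 * p) × Fin (2 * t + 1)) = 2 * p * (2 * t + 1) := by simp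
  have cB : Fintype.card (Fin 2 × Fin (p * (2 * t + 1))) = 2 * p * (2 * t + 1) := by
    simp; ring
  have cK : Fintype.card (Fin (2 * p) × Fin 2) = 4 * p := by simp; ring
  let eA := (Fintype.equivFinOfCardEq cA).symm
  let eB := (Fintype.equivFinOfCardEq cB).symm
  let eK := Fintype.equivFinOfCardEq cK
  refine ⟨fun a b => eK ((eA a).1, (eB b).1), fun σ => ?_⟩
  have key : ∀ i : Fin (4 * p), (1 / 2 : ℝ) ≤
      |(∑ a, if eK ((eA a).1, (eB (σ a)).1) = i then (1 : ℝ) else 0) -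
        (1 / ((2 * p * (2 * t + 1) : ℕ) : ℝ)) *
          ∑ a, ∑ b, if eK ((eA a).1, (eB b).1) = i then (1 : ℝ) else 0| := by
    intro i
    obtain ⟨⟨x, y⟩, rfl⟩ := eK.surjective i
    have h1 : (∑ a, ∑ b, if eK ((eA a).1, (eB b).1) = eK (x, y) then (1 : ℝ) else 0) =
        (2 * t + 1) * (p * (2 * t + 1)) := by
      have e1 : ∀ a, (∑ b, if eK ((eA a).1, (eB b).1) = eK (x, y) then (1 : ℝ) else 0) =
          (if (eA a).1 = x then (1 : ℝ) else 0) * (p * (2 * t + 1)) := by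
        intro a
        rw [Equiv.sum_comp eB (fun b => if eK ((eA a).1, b.1) = eK (x, y) then (1 : ℝ) else 0)]
        rw [Fintype.sum_prod_type]
        by_cases hx : (eA a).1 = x
        · simp [hx, Finset.sum_ite_eq']
        · simp [hx]
      simp only [e1]
      rw [← Finset.sum_mul, Equiv.sum_comp eA (fun a => if a.1 = x then (1 : ℝ) else 0),
        Fintype.sum_prod_type]
      simp [apply_ite]
    rw [h1, Finset.sum_boole]
    have hp' : (0 : ℝ) < p := by exact_mod_cast hp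
    have h2 : (1 / ((2 * p * (2 * t + 1) : ℕ) : ℝ)) * ((2 * t + 1) * (p * (2 * t + 1))) =
        (2 * t + 1) / 2 := by
      push_cast; field_simp
    rw [h2]
    exact half _ t
  calc ((4 * p : ℕ) : ℝ) / 2 = ∑ _i : Fin (4 * p), (1 / 2 : ℝ) := by simp; ring
    _ ≤ _ := Finset.sum_le_sum fun i _ => key i

theorem result :
    (¬ ∃ C : ℝ, ∀ n k : ℕ, 1 ≤ n → 1 ≤ k → ∀ h : Fin n → Fin n → Fin k → ℝ,
      (∀ a b, ∑ i, |h a b i| ≤ 1) → ∃ σ : Equiv.Perm (Fin n), err h σ ≤ C * Real.sqrt k) ∧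
    (∀ k N : ℕ, 1 ≤ k → 4 ∣ k → ∃ n : ℕ, N ≤ n ∧ 1 ≤ n ∧ ∃ h : Fin n → Fin n → Fin k → ℝ,
      (∀ a b, ∑ i, |h a b i| ≤ 1) ∧ ∀ σ : Equiv.Perm (Fin n), (k : ℝ) / 2 ≤ err h σ) := by
  have two : ∀ k N : ℕ, 1 ≤ k → 4 ∣ k → ∃ n : ℕ, N ≤ n ∧ 1 ≤ n ∧
      ∃ h : Fin n → Fin n → Fin k → ℝ,
      (∀ a b, ∑ i, |h a b i| ≤ 1) ∧ ∀ σ : Equiv.Perm (Fin n), (k : ℝ) / 2 ≤ err h σ := by
    rintro k N hk ⟨p, rfl⟩
    have hp : 1 ≤ p := by omega
    obtain ⟨c, hc⟩ := main p N hp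
    refine ⟨2 * p * (2 * N + 1), by nlinarith, by nlinarith, _, fun a b => ?_, hc⟩
    have : ∀ i, |if c a b = i then (1 : ℝ) else 0| = if c a b = i then (1 : ℝ) else 0 := by
      intro i; split_ifs <;> simp
    simp [this]
  refine ⟨?_, two⟩
  rintro ⟨C, hC⟩
  obtain ⟨m, hm⟩ := exists_nat_gt C
  obtain ⟨n, -, hn, h, h1, h2⟩ := two (4 * (m + 1) ^ 2) 0 (Nat.succ_le_of_lt (by positivity)) ⟨_, rfl⟩
  obtain ⟨σ, hσ⟩ := hC n _ hn (Nat.succ_le_of_lt (by positivity)) h h1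
  have h3 := (h2 σ).trans hσ
  have h4 : Real.sqrt ((4 * (m + 1) ^ 2 : ℕ) : ℝ) = 2 * (m + 1) := by
    rw [Real.sqrt_eq_iff_mul_self_eq (by positivity) (by positivity)]
    push_cast; ring
  rw [h4] at h3
  push_cast at h3
  have h5 : (0 : ℝ) ≤ m := by positivity
  nlinarith

end Pool.Agent.Results.MP_26893d_co.No
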